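import Mathlib

/-!
# The weak Serre conjecture over totally real fields: data and known facts
-/

namespace Pool.Agent.N522.WS

/-- Continuous, irreducible, totally odd representations `ρ̄ : G_F → GL₂(𝔽̄_p)` over totally real
fields, for a fixed prime `p ≥ 7`. -/
structure Theory where
  /-- totally real fields -/
  Fld : Type
  /-- degree over `ℚ` -/
  deg : Fld → ℕ
  /-- `F'` is a finite Galois extension of `F` with solvable group, and totally real -/
  Ext : Fld → Fld → Prop
  /-- the representations -/
  Rep : Fld → Type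
  /-- modular -/
  Mod : ∀ {F : Fld}, Rep F → Prop
  /-- the projective image is solvable -/
  Solv : ∀ {F : Fld}, Rep F → Prop
  /-- `ρ̄'` over `F'` is the restriction of `ρ̄` over `F` -/
  Rest : ∀ {F F' : Fld}, Rep F → Rep F' → Prop
  /-- the determinant is the cyclotomic character -/
  DetCyc : ∀ {F : Fld}, Rep F → Prop
  /-- unramified outside the places above `p` and trivial on the decomposition groups there -/
  Triv : ∀ {F : Fld}, Rep F → Prop

variable {T : Theory}

/-- Q1 for the prime `p` -/
def Q1 (T : Theory) : Prop := ∀ (F : T.Fld) (r : T.Rep F), T.Mod r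

/-- Q1 in good position: non-solvable image, cyclotomic determinant, unramified outside `p`, locally
trivial at `p`, and a field of degree divisible by `N` -/
def Q1Good (T : Theory) (N : ℕ) : Prop := ∀ (F : T.Fld) (r : T.Rep F),
  ¬ T.Solv r → T.DetCyc r → T.Triv r → N ∣ T.deg F → T.Mod r

/-- Known facts. -/
structure Facts (T : Theory) : Prop where
  /-- Langlands-Tunnell, and congruences with weights at least two -/
  solvable : ∀ (F : T.Fld) (r : T.Rep F), T.Solv r → T.Mod r
  /-- solvable base change (Langlands) -/
  up : ∀ (F F' : T.Fld) (r : T.Rep F) (r' : T.Rep F'), T.Ext F F' → T.Rest r r' → T.Mod r → T.Mod r'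
  /-- existence of a potentially diagonalizable lift of `ρ̄` (potential modularity; Taylor, Snowden,
  Barnet-Lamb-Gee-Geraghty-Taylor), modularity lifting over `F'` and solvable descent -/
  down : ∀ (F F' : T.Fld) (r : T.Rep F) (r' : T.Rep F'), T.Ext F F' → T.Rest r r' → ¬ T.Solv r →
    T.Mod r' → T.Mod r
  /-- There is a solvable totally real extension of degree divisible by `N` that trivializes the
  determinant up to the cyclotomic character, the ramification outside `p` and the decomposition
  groups at `p`; the projective image stays non-solvable. -/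
  good : ∀ (F : T.Fld) (r : T.Rep F) (N : ℕ), 0 < N → ¬ T.Solv r → ∃ (F' : T.Fld) (r' : T.Rep F'),
    T.Ext F F' ∧ T.Rest r r' ∧ ¬ T.Solv r' ∧ T.DetCyc r' ∧ T.Triv r' ∧ N ∣ T.deg F'

theorem invariance (H : Facts T) (F F' : T.Fld) (r : T.Rep F) (r' : T.Rep F') (h : T.Ext F F')
    (hr : T.Rest r r') (hs : ¬ T.Solv r) : T.Mod r ↔ T.Mod r' :=
  ⟨H.up F F' r r' h hr, H.down F F' r r' h hr hs⟩

theorem q1_iff (H : Facts T) (N : ℕ) (hN : 0 < N) : Q1 T ↔ Q1Good T N := by
  refine ⟨fun h F r _ _ _ _ => h F r, fun h F r => ?_⟩
  by_cases hs : T.Solv r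
  · exact H.solvable F r hs
  · obtain ⟨F', r', h1, h2, h3, h4, h5, h6⟩ := H.good F r N hN hs
    exact H.down F F' r r' h1 h2 hs (h F' r' h3 h4 h5 h6)

end Pool.Agent.N522.WS
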